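import Pool.Agent.H.MP_722fe9_lc.Defs
import Pool.Agent.Lib.helper25.RelGr
import Pool.Agent.Lib.lead.CXBase

namespace Pool.Agent.H.MP_722fe9_lc

open Pool.Agent.Lib.CX

abbrev K := ℕ × ℕ × ℕ

def cl (φ : List (T3 ℕ)) (j : ℕ) : T3 ℕ := φ.getD j (0, 0, 0)

def A (φ : List (T3 ℕ)) (x y : K) : Prop :=
  (x.1 = 0 ∧ y.1 = 0) ∨ (x.1 = 0 ∧ (y.1 = 1 ∨ y.1 = 2) ∧ x.2.1 = y.2.1) ∨
  (x.1 = y.1 ∧ 1 ≤ x.1 ∧ x.1 ≤ 3 ∧ x.2.1 = y.2.1) ∨ (x.1 = 6 ∧ y.1 = 0 ∧ y.2.1 < 4) ∨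
  (x.1 = 3 ∧ (y.1 = 4 ∨ y.1 = 5) ∧ x.2.1 = y.2.1) ∨ (x.1 = 3 ∧ y.1 = 0 ∧ y.2.1 = 0) ∨
  (x.1 = 4 ∧ y.1 = 0 ∧ (y.2.1 = (cl φ x.2.1).1 + 4 ∨ y.2.1 = (cl φ x.2.1).2.1 + 4 ∨ y.2.1 = (cl φ x.2.1).2.2 + 4))
instance (φ x y) : Decidable (A φ x y) := by unfold A; infer_instance

def In (m : ℕ) (x : K) : Prop :=
  (x.1 = 0 ∧ x.2.1 < 3 * m + 4 ∧ x.2.2 = 0) ∨ ((x.1 = 1 ∨ x.1 = 2) ∧ x.2.1 < 3 * m + 4 ∧ x.2.2 < 2) ∨
    (3 ≤ x.1 ∧ x.1 ≤ 5 ∧ x.2.1 < m ∧ x.2.2 < 2) ∨ (x.1 = 6 ∧ x.2.1 = 0 ∧ x.2.2 = 0)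
instance (m x) : Decidable (In m x) := by unfold In; infer_instance

def Ad (φ : List (T3 ℕ)) (x y : K) : Prop := x ≠ y ∧ (A φ x y ∨ A φ y x)

def F (φ : List (T3 ℕ)) (L : List K) : Prop :=
  (∃ t i, In φ.length (t, i, 1) ∧ L = [(t, i, 0), (t, i, 1)]) ∨ L = [(6, 0, 0), (0, 0, 0), (0, 1, 0), (0, 2, 0), (0, 3, 0)] ∨
    ∃ j < φ.length, ∃ b < 2, ∃ c < 2, L = [(4, j, b), (5, j, c), (0, (cl φ j).1 + 4, 0), (0, (cl φ j).2.1 + 4, 0),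
      (0, (cl φ j).2.2 + 4, 0)]

def H (φ : List (T3 ℕ)) (E : Set K) : Prop := ∀ L, F φ L → ∃ x ∈ L, x ∈ E

def LK (φ : List (T3 ℕ)) (E : Set K) : Prop :=
  (∀ v, In φ.length v → v ∉ E → ∃ w ∈ E, Ad φ v w) ∧
    ∀ u v, In φ.length u → In φ.length v → u ∉ E → v ∉ E → u ≠ v → ∃ w ∈ E, ¬ (Ad φ u w ↔ Ad φ v w)

theorem lk_h {φ E} (hE : ∀ x ∈ E, In φ.length x) (h : LK φ E) : H φ E := by
  rintro L (⟨t, i, hi, rfl⟩ | rfl | ⟨j, hj, b, hb, c, hc, rfl⟩) <;> by_contra q <;>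
    simp only [List.mem_cons, List.not_mem_nil, or_false, exists_eq_or_imp, exists_eq_left, not_or] at q
  · obtain ⟨⟨s, k, b⟩, hw, e⟩ := h.2 _ _ (by simp only [In] at hi ⊢; omega) hi q.1 q.2 (by simp)
    have n0 : (t, i, 0) ≠ (s, k, b) := fun r => q.1 (r ▸ hw)
    have n1 : (t, i, 1) ≠ (s, k, b) := fun r => q.2 (r ▸ hw)
    exact e (by simp only [Ad, n0, n1, A, ne_eq, not_false_eq_true])
  · obtain ⟨⟨s, k, b⟩, hw, e⟩ := h.1 _ (by simp [In]) q.1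
    have := hE _ hw
    simp only [Ad, A, In] at e this
    obtain ⟨rfl, rfl, rfl | rfl | rfl | rfl⟩ : s = 0 ∧ b = 0 ∧ (k = 0 ∨ k = 1 ∨ k = 2 ∨ k = 3) := by omega
    all_goals tauto
  · obtain ⟨⟨s, k, d⟩, hw, e⟩ := h.2 _ _ (by simp [In]; omega) (by simp [In]; omega) q.1 q.2.1 (by simp)
    have := hE _ hw
    have n0 : (4, j, b) ≠ (s, k, d) := fun r => q.1 (r ▸ hw)
    have n1 : (5, j, c) ≠ (s, k, d) := fun r => q.2.1 (r ▸ hw)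
    simp only [Ad, n0, n1, ne_eq, not_false_eq_true, true_and] at e
    by_cases s0 : s = 0
    · subst s0
      obtain rfl : d = 0 := by dsimp only [In] at this; omega
      obtain rfl | rfl | rfl : k = (cl φ j).1 + 4 ∨ k = (cl φ j).2.1 + 4 ∨ k = (cl φ j).2.2 + 4 := by
        simpa [A, or_iff_not_imp_left] using e
      all_goals tauto
    · exact e (by simp [A, s0]; omega)

theorem a1 {φ v i d} : (A φ v (1, i, d) ∨ A φ (1, i, d) v) ↔ (v.1 = 0 ∨ v.1 = 1) ∧ v.2.1 = i := by simp [A]; omega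
theorem a2 {φ v i d} : (A φ v (2, i, d) ∨ A φ (2, i, d) v) ↔ (v.1 = 0 ∨ v.1 = 2) ∧ v.2.1 = i := by simp [A]; omega
theorem a3 {φ v i d} : (A φ v (3, i, d) ∨ A φ (3, i, d) v) ↔
    (3 ≤ v.1 ∧ v.1 ≤ 5) ∧ v.2.1 = i ∨ v.1 = 0 ∧ v.2.1 = 0 := by simp [A]; omega
theorem a5 {φ v i d} : (A φ v (5, i, d) ∨ A φ (5, i, d) v) ↔ v.1 = 3 ∧ v.2.1 = i := by simp [A]; omega

theorem tw {φ E} (h : H φ E) (t i) (a : In φ.length (t, i, 1)) : ∃ b < 2, (t, i, b) ∈ E := by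
  obtain ⟨x, hx, e⟩ := h _ (.inl ⟨t, i, a, rfl⟩)
  simp at hx
  obtain rfl | rfl := hx
  exacts [⟨0, by omega, e⟩, ⟨1, by omega, e⟩]

theorem wit {φ} {E : Set K} (u v w : K) (a : u ∉ E) (c : w ∈ E) (d : A φ u w ∨ A φ w u) (e : ¬ (A φ v w ∨ A φ w v)) :
    ∃ w ∈ E, ¬ (Ad φ u w ↔ Ad φ v w) := ⟨w, c, fun q => e (q.1 ⟨fun r => a (r ▸ c), d⟩).2⟩

theorem dom {φ E} (h : H φ E) : ∀ v, In φ.length v → v ∉ E → ∃ w ∈ E, Ad φ v w := by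
  rintro ⟨t, i, b⟩ hv n
  have wi : ∀ w ∈ E, (A φ (t, i, b) w ∨ A φ w (t, i, b)) → ∃ w ∈ E, Ad φ (t, i, b) w :=
    fun w c d => ⟨w, c, fun r => n (r ▸ c), d⟩
  dsimp only [In] at hv
  obtain q | q | q | q : t ≤ 1 ∨ t = 2 ∨ (3 ≤ t ∧ t ≤ 5) ∨ t = 6 := by omega
  · obtain ⟨c, -, e⟩ := tw h 1 i (by dsimp only [In]; omega)
    exact wi _ e (a1.2 (by dsimp only; omega))
  · obtain ⟨c, -, e⟩ := tw h 2 i (by dsimp only [In]; omega)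
    exact wi _ e (a2.2 (by dsimp only; omega))
  · obtain ⟨c, -, e⟩ := tw h 3 i (by dsimp only [In]; omega)
    exact wi _ e (a3.2 (by dsimp only; omega))
  · obtain ⟨rfl, rfl⟩ : i = 0 ∧ b = 0 := by omega
    subst q
    obtain ⟨x, hx, e⟩ := h _ (.inr (.inl rfl))
    simp at hx
    obtain rfl | rfl | rfl | rfl | rfl := hx
    exacts [(n e).elim, wi _ e (by simp [A]), wi _ e (by simp [A]), wi _ e (by simp [A]), wi _ e (by simp [A])]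

theorem k0 {φ E} (h : H φ E) : ∀ u v, In φ.length u → u ∉ E → u ≠ v → In φ.length v → u.1 = 0 →
    ∃ w ∈ E, ¬ (Ad φ u w ↔ Ad φ v w) := by
  rintro ⟨t, i, b⟩ ⟨s, k, c⟩ hu nu ne hv (rfl : t = 0)
  simp only [ne_eq, Prod.mk.injEq, true_and] at ne
  dsimp only [In] at hu hv
  by_cases q : s = 1
  · obtain ⟨d, -, e⟩ := tw h 2 i (by dsimp only [In]; omega)
    exact wit _ _ _ nu e (a2.2 (by simp)) (a2.not.2 (by dsimp only; omega))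
  · obtain ⟨d, -, e⟩ := tw h 1 i (by dsimp only [In]; omega)
    exact wit _ _ _ nu e (a1.2 (by simp)) (a1.not.2 (by dsimp only; omega))

theorem tw' {φ E} (h : H φ E) {t i b s k c} (hu : In φ.length (t, i, b)) (hv : In φ.length (s, k, c))
    (nu : (t, i, b) ∉ E) (nv : (s, k, c) ∉ E) (ne : (t, i, b) ≠ (s, k, c)) (h1 : 1 ≤ t) (h5 : t ≤ 5) :
    ¬ (s = t ∧ k = i) := by
  rintro ⟨rfl, rfl⟩
  simp only [ne_eq, Prod.mk.injEq, true_and] at ne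
  dsimp only [In] at hu hv
  obtain ⟨d, hd, e⟩ := tw h s k (by dsimp only [In]; omega)
  have n1 : b ≠ d := fun r => nu (r ▸ e)
  exact nv (by rw [show c = d by omega]; exact e)

theorem k1 {φ E} (h : H φ E) : ∀ u v, In φ.length u → u ∉ E → v ∉ E → u ≠ v → In φ.length v → v.1 ≠ 0 → 1 ≤ u.1 →
    u.1 ≤ 3 → ∃ w ∈ E, ¬ (Ad φ u w ↔ Ad φ v w) := by
  rintro ⟨t, i, b⟩ ⟨s, k, c⟩ hu nu nv ne hv h0 h1 h3
  dsimp only at h0 h1 h3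
  have := tw' h hu hv nu nv ne h1 (by omega)
  dsimp only [In] at hu
  obtain rfl | rfl | rfl : t = 1 ∨ t = 2 ∨ t = 3 := by omega
  · obtain ⟨d, -, e⟩ := tw h 1 i (by dsimp only [In]; omega)
    exact wit _ _ _ nu e (a1.2 (by simp)) (a1.not.2 (by dsimp only; omega))
  · obtain ⟨d, -, e⟩ := tw h 2 i (by dsimp only [In]; omega)
    exact wit _ _ _ nu e (a2.2 (by simp)) (a2.not.2 (by dsimp only; omega))
  · obtain ⟨d, -, e⟩ := tw h 5 i (by dsimp only [In]; omega)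
    exact wit _ _ _ nu e (a5.2 (by simp)) (a5.not.2 (by dsimp only; omega))

theorem k2 {φ E} (h : H φ E) : ∀ u v, In φ.length u → u ∉ E → v ∉ E → u ≠ v → In φ.length v → 4 ≤ v.1 → 4 ≤ u.1 →
    u.1 ≤ 5 → u.1 ≤ v.1 → ∃ w ∈ E, ¬ (Ad φ u w ↔ Ad φ v w) := by
  rintro ⟨t, i, b⟩ ⟨s, k, c⟩ hu nu nv ne hv h0 h1 h3 h4
  dsimp only at h0 h1 h3 h4
  have := tw' h hu hv nu nv ne (by omega) h3
  dsimp only [In] at hu hv
  by_cases q : t = 4 ∧ s = 5 ∧ k = i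
  · obtain ⟨rfl, rfl, rfl⟩ := q
    obtain ⟨x, hx, e⟩ := h _ (.inr (.inr ⟨k, by omega, b, by omega, c, by omega, rfl⟩))
    simp at hx
    obtain rfl | rfl | rfl | rfl | rfl := hx
    exacts [(nu e).elim, (nv e).elim, wit _ _ _ nu e (by simp [A]) (by simp [A]),
      wit _ _ _ nu e (by simp [A]) (by simp [A]), wit _ _ _ nu e (by simp [A]) (by simp [A])]
  · obtain ⟨d, hd, e⟩ := tw h 3 i (by dsimp only [In]; omega)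
    exact wit _ _ _ nu e (a3.2 (by dsimp only; omega)) (a3.not.2 (by dsimp only; omega))

theorem h_lk {φ E} (h : H φ E) : LK φ E := by
  refine ⟨dom h, fun u v hu hv nu nv ne => ?_⟩
  have sw : (∃ w ∈ E, ¬ (Ad φ v w ↔ Ad φ u w)) → ∃ w ∈ E, ¬ (Ad φ u w ↔ Ad φ v w) :=
    fun ⟨w, a, b⟩ => ⟨w, a, fun q => b q.symm⟩
  by_cases a0 : u.1 = 0
  · exact k0 h u v hu nu ne hv a0
  by_cases b0 : v.1 = 0
  · exact sw (k0 h v u hv nv ne.symm hu b0)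
  by_cases a1 : u.1 ≤ 3
  · exact k1 h u v hu nu nv ne hv b0 (by omega) a1
  by_cases b1 : v.1 ≤ 3
  · exact sw (k1 h v u hv nv nu ne.symm hu a0 (by omega) b1)
  have : u.1 ≤ 5 ∨ v.1 ≤ 5 := by
    obtain ⟨t, i, b⟩ := u
    obtain ⟨s, k, c⟩ := v
    simp only [ne_eq, Prod.mk.injEq] at ne
    dsimp only [In] at hu hv ⊢; omega
  by_cases c : u.1 ≤ v.1
  · exact k2 h u v hu nu nv ne hv (by omega) (by omega) (by omega) c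
  · exact sw (k2 h v u hv nv nu ne.symm hu (by omega) (by omega) (by omega) (by omega))

end Pool.Agent.H.MP_722fe9_lc
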