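import Pool.Agent.H.MP_722fe9_lc.A

namespace Pool.Agent.H.MP_722fe9_lc

open Pool.Agent.Lib.CX

def vs (m : ℕ) : List K := (List.range 7 ×ˢ (List.range (3 * m + 4) ×ˢ List.range 2)).filter fun x => In m x
theorem mem_vs {m x} : x ∈ vs m ↔ In m x := by
  obtain ⟨t, c, i⟩ := x
  simp only [vs, List.mem_filter, List.mem_product, List.mem_range, decide_eq_true_eq, In]; omega

def rel (φ : List (T3 ℕ)) (e : K × K) : Bool := A φ e.1 e.2
def gr (φ : List (T3 ℕ)) : Gr := relGr (vs φ.length) (rel φ)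
def nm (φ : List (T3 ℕ)) : Fin (gr φ).n → K := relNm (vs φ.length) (rel φ)

theorem adj {φ} {u v : Fin (gr φ).n} : (gr φ).G.Adj u v ↔ Ad φ (nm φ u) (nm φ v) :=
  (relGr_adj _ _ u v).trans (by simp [rel, Ad, nm])
theorem inj (φ) : Function.Injective (nm φ) := relNm_inj _ _
theorem ran {φ x} : In φ.length x ↔ ∃ u, nm φ u = x := mem_vs.symm.trans (relNm_range _ _ _)

theorem ld_lk {φ} {D : Set (Fin (gr φ).n)} : IsLD (gr φ).G D ↔ LK φ (nm φ '' D) := by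
  have m : ∀ u, nm φ u ∈ nm φ '' D ↔ u ∈ D := fun u => (inj φ).mem_set_image
  have e : ∀ u v, (gr φ).G.neighborSet u ∩ D ≠ (gr φ).G.neighborSet v ∩ D ↔
      ∃ w ∈ nm φ '' D, ¬ (Ad φ (nm φ u) w ↔ Ad φ (nm φ v) w) := fun u v => by
    simp only [ne_eq, Set.ext_iff, Set.mem_inter_iff, SimpleGraph.mem_neighborSet, adj, Set.exists_mem_image, not_forall]
    exact exists_congr fun w => by tauto
  constructor
  · rintro ⟨a, b⟩
    refine ⟨fun v hv n => ?_, fun u v hu hv nu nv ne => ?_⟩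
    · obtain ⟨v, rfl⟩ := ran.1 hv
      obtain ⟨w, c, d⟩ := a v ((m v).not.1 n)
      exact ⟨_, (m w).2 c, adj.1 d⟩
    · obtain ⟨u, rfl⟩ := ran.1 hu
      obtain ⟨v, rfl⟩ := ran.1 hv
      exact (e u v).1 (b u ((m u).not.1 nu) v ((m v).not.1 nv) fun r => ne (congrArg _ r))
  · rintro ⟨a, b⟩
    refine ⟨fun v n => ?_, fun u nu v nv ne => (e u v).2 (b _ _ (ran.2 ⟨u, rfl⟩) (ran.2 ⟨v, rfl⟩) ((m u).not.2 nu)
      ((m v).not.2 nv) ((inj φ).ne ne))⟩
    obtain ⟨_, ⟨w, c, rfl⟩, d⟩ := a _ (ran.2 ⟨v, rfl⟩) ((m v).not.2 n)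
    exact ⟨w, c, adj.2 d⟩

theorem ld_h {φ} {D : Set (Fin (gr φ).n)} : IsLD (gr φ).G D ↔ H φ (nm φ '' D) :=
  ld_lk.trans ⟨lk_h (by rintro _ ⟨u, -, rfl⟩; exact ran.2 ⟨u, rfl⟩), h_lk⟩

theorem conn (φ) : (gr φ).G.Connected := by
  obtain ⟨r, hr⟩ := (ran (φ := φ) (x := (0, 0, 0))).1 (by simp [In])
  have st : ∀ x y : K, In φ.length y → Ad φ x y → (∀ v, nm φ v = y → (gr φ).G.Reachable v r) →
      ∀ u, nm φ u = x → (gr φ).G.Reachable u r := fun x y hy a h u hu => by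
    obtain ⟨v, hv⟩ := ran.1 hy
    exact (adj.2 (hu ▸ hv ▸ a)).reachable.trans (h v hv)
  have s0 : ∀ v, nm φ v = (0, 0, 0) → (gr φ).G.Reachable v r := fun v hv => by rw [inj φ (hv.trans hr.symm)]
  have s1 : ∀ i v, nm φ v = (0, i, 0) → (gr φ).G.Reachable v r := fun i => by
    by_cases h : i = 0
    · exact h ▸ s0
    · exact st _ _ (by simp [In]) (by simp [Ad, A, h]) s0
  have s3 : ∀ i b v, nm φ v = (3, i, b) → (gr φ).G.Reachable v r := fun i b => st _ _ (by simp [In]) (by simp [Ad, A]) s0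
  have : ∀ u, (gr φ).G.Reachable u r := fun u => by
    have hu := ran.2 ⟨u, rfl⟩
    generalize e : nm φ u = x at hu
    obtain ⟨t, i, b⟩ := x
    dsimp only [In] at hu
    obtain rfl | rfl | rfl | rfl | rfl | rfl | rfl : t = 0 ∨ t = 1 ∨ t = 2 ∨ t = 3 ∨ t = 4 ∨ t = 5 ∨ t = 6 := by omega
    · obtain rfl : b = 0 := by omega
      exact s1 i u e
    · exact st _ _ (by simp [In]; omega) (by simp [Ad, A]) (s1 i) u e
    · exact st _ _ (by simp [In]; omega) (by simp [Ad, A]) (s1 i) u e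
    · exact s3 i b u e
    · exact st _ _ (by simp [In]; omega) (by simp [Ad, A]) (s3 i 0) u e
    · exact st _ _ (by simp [In]; omega) (by simp [Ad, A]) (s3 i 0) u e
    · exact st _ _ (by simp [In]) (by simp [Ad, A]) s0 u e
  exact (SimpleGraph.connected_iff_exists_forall_reachable _).2 ⟨r, fun u => (this u).symm⟩

theorem two {φ} {D E : Set K} (hd : H φ D) (he : H φ E) (h : Disjoint D E) : SatR nae φ := by
  classical
  refine ⟨fun x => decide ((0, x + 4, 0) ∈ D), fun C hC => ?_⟩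
  obtain ⟨j, hj, rfl⟩ := List.getElem_of_mem hC
  have e : cl φ j = φ[j] := List.getD_eq_getElem _ _ hj
  have key : ∀ {D E : Set K}, H φ D → H φ E → Disjoint D E →
      (0, φ[j].1 + 4, 0) ∈ D ∨ (0, φ[j].2.1 + 4, 0) ∈ D ∨ (0, φ[j].2.2 + 4, 0) ∈ D := fun {D E} hd he h => by
    obtain ⟨b, hb, p⟩ := tw he 4 j (by simp [In, hj])
    obtain ⟨c, hc, q⟩ := tw he 5 j (by simp [In, hj])
    simpa [e, Set.disjoint_right.1 h p, Set.disjoint_right.1 h q] using hd _ (.inr (.inr ⟨j, hj, b, hb, c, hc, rfl⟩))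
  have a := key hd he h
  have b := key he hd h.symm
  have c : ∀ x ∈ E, x ∉ D := Set.disjoint_right.1 h
  simp only [nae, Bool.not_eq_true', Bool.and_eq_false_iff, beq_eq_false_iff_ne, ne_eq, decide_eq_decide]
  have := c (0, φ[j].1 + 4, 0)
  have := c (0, φ[j].2.1 + 4, 0)
  have := c (0, φ[j].2.2 + 4, 0)
  tauto

theorem fwd {φ} (h : CLge (gr φ).G 7) : SatR nae φ := by
  classical
  obtain ⟨P, ⟨hP, h⟩, k⟩ := h
  have dj : ∀ X ∈ P, ∀ Y ∈ P, X ≠ Y → Disjoint X Y := fun X a Y b c => hP.pairwiseDisjoint a b c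
  by_contra ns
  have no : ∀ X ∈ P, ∀ Y ∈ P, ∀ Z ∈ P, ∀ W ∈ P, IsLD (gr φ).G (X ∪ Y) → IsLD (gr φ).G (Z ∪ W) →
      X = Z ∨ X = W ∨ Y = Z ∨ Y = W := fun X a Y b Z c W d e f => by
    by_contra q
    simp only [not_or] at q
    refine ns (two (ld_h.1 e) (ld_h.1 f) ((Set.disjoint_image_iff (inj φ)).2 ?_))
    simp only [Set.disjoint_union_left, Set.disjoint_union_right]
    exact ⟨⟨dj _ a _ c q.1, dj _ b _ c q.2.2.1⟩, dj _ a _ d q.2.1, dj _ b _ d q.2.2.2⟩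
  have star : ∀ X ∈ P, ¬ ∀ Z ∈ P, Z ≠ X → IsLD (gr φ).G (X ∪ Z) := fun X a b => by
    have := ld_h.not.1 (h X a).1
    simp only [H, not_forall] at this
    obtain ⟨L, hL, n⟩ := this
    have l : L.length ≤ 5 := by obtain ⟨_, _, -, rfl⟩ | rfl | ⟨_, -, _, -, _, -, rfl⟩ := hL <;> simp
    have : ∀ Z ∈ P \ {X}, ∃ x ∈ L, x ∈ nm φ '' Z := fun Z hZ => by
      obtain ⟨x, c, d⟩ := ld_h.1 (b Z hZ.1 hZ.2) L hL
      rw [Set.image_union] at d
      exact ⟨x, c, d.resolve_left fun e => n ⟨x, c, e⟩⟩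
    choose! f f1 f2 using this
    have := Set.ncard_le_ncard_of_injOn (t := (L.toFinset : Set K)) f (fun Z hZ => by simpa using f1 Z hZ)
      (fun Z a W b e => by
        by_contra q
        exact Set.disjoint_left.1 ((Set.disjoint_image_iff (inj φ)).2 (dj _ a.1 _ b.1 q)) (f2 Z a) (e ▸ f2 W b))
    rw [Set.ncard_coe_finset, Set.ncard_diff_singleton_of_mem a] at this
    have := L.toFinset_card_le
    omega
  obtain ⟨X, a⟩ : P.Nonempty := Set.nonempty_of_ncard_ne_zero (by omega)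
  obtain ⟨Y, b, c, d⟩ := (h X a).2
  have oth : ∀ Z ∈ P, Z ≠ X → Z ≠ Y → IsLD (gr φ).G (X ∪ Z) ∨ IsLD (gr φ).G (Y ∪ Z) := fun Z e f g => by
    obtain ⟨W, i, -, j⟩ := (h Z e).2
    obtain r | r | r | r := no X a Y b Z e W i d j
    exacts [(f r.symm).elim, .inl (r ▸ Set.union_comm Z W ▸ j), (g r.symm).elim, .inr (r ▸ Set.union_comm Z W ▸ j)]
  have s1 := star X a
  have s2 := star Y b
  push Not at s1 s2
  obtain ⟨Z, e, f, g⟩ := s1
  obtain ⟨W, i, j, l⟩ := s2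
  have zy : Z ≠ Y := fun r => g (r ▸ d)
  have wx : W ≠ X := fun r => l (r ▸ Set.union_comm X Y ▸ d)
  have p := (oth Z e f zy).resolve_left g
  have q := (oth W i wx j).resolve_right l
  obtain r | r | r | r := no X a W i Y b Z e q p
  exacts [c r.symm, f r.symm, j r, g (r ▸ q)]

def col (v : ℕ → Bool) (x : K) : ℕ :=
  if x.1 = 0 then (if x.2.1 < 4 then x.2.1 + 2 else (v (x.2.1 - 4)).toNat) else if x.1 = 6 then 1 else
    if x = (1, 0, 1) then 6 else x.2.2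

theorem c1 (v m t k) (i j : ℕ) (a : In m (t, k, 1)) (q : i = 0 ∧ 2 ≤ j ∧ j ≤ 5 ∨ i = 1 ∧ j = 6) :
    In m (t, k, i) ∧ col v (t, k, i) = i ∨ In m (t, k, i) ∧ col v (t, k, i) = j := by
  have b : t ≠ 0 ∧ t ≠ 6 := by dsimp only [In] at a; omega
  obtain ⟨rfl, -⟩ | ⟨rfl, rfl⟩ := q
  · exact .inl ⟨by dsimp only [In] at a ⊢; omega, by simp [col, b]⟩
  · simp only [a, true_and]; by_cases c : t = 1 ∧ k = 0 <;> simp [col, b, c]

theorem c2 (v m) (j : ℕ) (a : 2 ≤ j) (b : j ≤ 5) : In m (0, j - 2, 0) ∧ col v (0, j - 2, 0) = j :=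
  ⟨by simp [In]; omega, by simp [col, show j - 2 < 4 by omega]; omega⟩

theorem c3 (v m x) (a : In m x) : col v x < 7 := by
  have := (v (x.2.1 - 4)).toNat_le
  dsimp only [In, col] at a ⊢
  split_ifs <;> omega

theorem bwd {φ} (ok : ∀ C ∈ φ, ∀ x ∈ C.vars, x < 3 * φ.length) (h : SatR nae φ) : CLge (gr φ).G 7 := by
  obtain ⟨v, hv⟩ := h
  let p : Fin 7 → Set (Fin (gr φ).n) := fun i => {u | col v (nm φ u) = i}
  have m : ∀ i x, x ∈ nm φ '' p i ↔ In φ.length x ∧ col v x = i := fun i x =>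
    ⟨by rintro ⟨u, a, rfl⟩; exact ⟨ran.2 ⟨u, rfl⟩, a⟩, fun ⟨a, b⟩ => by obtain ⟨u, rfl⟩ := ran.1 a; exact ⟨u, b, rfl⟩⟩
  have ne : ∀ i, (p i).Nonempty := fun i => by
    have : ∃ x, In φ.length x ∧ col v x = i := by
      fin_cases i
      exacts [⟨(1, 0, 0), by simp [In, col]⟩, ⟨(6, 0, 0), by simp [In, col]⟩, ⟨(0, 0, 0), by simp [In, col]⟩,
        ⟨(0, 1, 0), by simp [In, col]⟩, ⟨(0, 2, 0), by simp [In, col]⟩, ⟨(0, 3, 0), by simp [In, col]⟩,
        ⟨(1, 0, 1), by simp [In, col]⟩]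
    obtain ⟨x, hx⟩ := this
    exact Set.Nonempty.of_image ⟨x, (m i x).2 hx⟩
  have pi : Function.Injective p := fun i j e => by
    obtain ⟨u, hu⟩ := ne i
    exact Fin.ext (hu.symm.trans (show u ∈ p j from e ▸ hu))
  have lt : ∀ u, col v (nm φ u) < 7 := fun u => c3 _ _ _ (ran.2 ⟨u, rfl⟩)
  have cc : ∀ j < φ.length, ∀ b < 2, ∃ x ∈ (cl φ j).vars, In φ.length (0, x + 4, 0) ∧ col v (0, x + 4, 0) = b := by
    intro j hj b hb
    have hC : cl φ j ∈ φ := by rw [cl, List.getD_eq_getElem _ _ hj]; exact List.getElem_mem _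
    have : ∃ x ∈ (cl φ j).vars, (v x).toNat = b := by
      have := hv _ hC
      simp only [T3.vars, List.mem_cons, exists_eq_or_imp]
      revert this
      generalize v _ = i, v _ = j, v _ = k
      obtain rfl | rfl : b = 0 ∨ b = 1 := by omega
      all_goals cases i <;> cases j <;> cases k <;> simp [nae]
    obtain ⟨x, a, c⟩ := this
    exact ⟨x, a, by simpa [In] using ok _ hC x a, by simpa [col] using c⟩
  have ld : ∀ i j : Fin 7, (i.1 = 0 ∧ 2 ≤ j.1 ∧ j.1 ≤ 5 ∨ i.1 = 1 ∧ j.1 = 6) → IsLD (gr φ).G (p i ∪ p j) := by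
    intro i j q
    rw [ld_h, Set.image_union]
    simp only [H, Set.mem_union, m]
    rintro L (⟨t, k, a, rfl⟩ | rfl | ⟨k, a, b, -, c, -, rfl⟩)
    · exact ⟨(t, k, i), by simp; omega, c1 _ _ _ _ _ _ a q⟩
    · obtain q | q := q
      · exact ⟨(0, j - 2, 0), by simp; omega, .inr (c2 _ _ _ q.2.1 q.2.2)⟩
      · exact ⟨(6, 0, 0), by simp, .inl (by simp [In, col, q])⟩
    · obtain ⟨x, d, e⟩ := cc k a i (by omega)
      exact ⟨_, by simpa [T3.vars, or_assoc] using d, .inl e⟩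
  refine ⟨Set.range p, ⟨⟨fun ⟨i, e⟩ => (ne i).ne_empty e, fun u => ⟨p ⟨_, lt u⟩, ⟨⟨_, rfl⟩, rfl⟩, ?_⟩⟩, ?_⟩, ?_⟩
  · rintro _ ⟨⟨i, rfl⟩, e⟩
    exact congrArg p (Fin.ext e.symm)
  · rintro _ ⟨i, rfl⟩
    constructor
    · rw [ld_h]
      intro q
      by_cases r : i.1 = 0 ∨ i.1 = 6
      · have := q _ (.inr (.inl rfl))
        simp [m, col] at this; omega
      · have := q _ (.inl ⟨1, 0, by simp [In], rfl⟩)
        simp [m, col] at this; omega
    · fin_cases i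
      exacts [⟨_, ⟨2, rfl⟩, pi.ne (by decide), ld _ _ (by decide)⟩, ⟨_, ⟨6, rfl⟩, pi.ne (by decide), ld _ _ (by decide)⟩,
        ⟨_, ⟨0, rfl⟩, pi.ne (by decide), Set.union_comm _ _ ▸ ld _ _ (by decide)⟩,
        ⟨_, ⟨0, rfl⟩, pi.ne (by decide), Set.union_comm _ _ ▸ ld _ _ (by decide)⟩,
        ⟨_, ⟨0, rfl⟩, pi.ne (by decide), Set.union_comm _ _ ▸ ld _ _ (by decide)⟩,
        ⟨_, ⟨0, rfl⟩, pi.ne (by decide), Set.union_comm _ _ ▸ ld _ _ (by decide)⟩,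
        ⟨_, ⟨1, rfl⟩, pi.ne (by decide), Set.union_comm _ _ ▸ ld _ _ (by decide)⟩]
  · rw [← Set.image_univ, Set.ncard_image_of_injective _ pi]; simp

set_option synthInstance.maxSize 2000 in
theorem pt_gr : PT gr := by
  have a : PT fun φ : List (T3 ℕ) => vs φ.length := by unfold vs In; fun_prop
  have c : PT fun p : List (T3 ℕ) × ℕ => cl p.1 p.2 := by unfold cl; fun_prop
  exact PT.relGr a (by unfold rel A; fun_prop)

attribute [local irreducible] gr in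
theorem hard : NPHard fun a : {a : Gr // a.G.Connected} => CLge a.1.G 7 :=
  NPHard.of_nae (fun φ => ⟨gr φ, conn φ⟩) (pt_gr.subtype _) fun _ h => ⟨bwd fun C hC => (h C hC).2, fwd⟩

end Pool.Agent.H.MP_722fe9_lc
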