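import Pool.Agent.Lib.lead.CXGraph

namespace Pool.Agent.H.MP_722fe9_lc

variable {V : Type}

/-- locating-dominating sets -/
def IsLD (G : SimpleGraph V) (D : Set V) : Prop :=
  (∀ v ∉ D, ∃ w ∈ D, G.Adj v w) ∧
    ∀ u ∉ D, ∀ v ∉ D, u ≠ v → G.neighborSet u ∩ D ≠ G.neighborSet v ∩ D

/-- a partition of the vertices into non-LD-sets each of which forms an LD-coalition with another part -/
def IsLDC (G : SimpleGraph V) (P : Set (Set V)) : Prop :=
  Setoid.IsPartition P ∧ ∀ X ∈ P, ¬ IsLD G X ∧ ∃ Y ∈ P, Y ≠ X ∧ IsLD G (X ∪ Y)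

/-- `C_L(G) ≥ k`: there is an LDC-partition with at least `k` parts -/
def CLge (G : SimpleGraph V) (k : ℕ) : Prop := ∃ P, IsLDC G P ∧ k ≤ P.ncard

end Pool.Agent.H.MP_722fe9_lc
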